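import Pool.Agent.H41.CL.Fin
import Pool.Agent.H41.CL.Sub
import Pool.Agent.H41.CL.Det
import Pool.Agent.H41.CL.Red
import Pool.Agent.H155.CL.INV
import Pool.Agent.H163.CL.SWI
import Pool.Agent.H331.CL.MEAN
import Pool.Agent.H333.CL.TB
import Pool.Agent.H402.CL.GR
import Pool.Agent.H410.CL.BIP
import Pool.Agent.H71.CL.CYC
import Pool.Agent.H870.CL.EXP
import Pool.Agent.H935.CL.CONJ

set_option autoImplicit false

/-! # The random cubic graph is whp 2-weakly Cockayne–Lorimer (MP_76d27f_co, Q1) -/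

namespace Pool.Agent.Results.MP_76d27f_co.RandomCubicWeaklyCockayneLorimer

open Filter Topology

/-- `M` is a matching: no two members of `M` share a vertex. -/
def IsMatching {V : Type*} (M : Finset (Sym2 V)) : Prop :=
  ∀ e ∈ M, ∀ f ∈ M, e ≠ f → ∀ v, v ∈ e → v ∉ f

/-- The matching number `ν(G)`: the largest size of a matching of edges of `G`. -/
noncomputable def matchingNumber {V : Type*} (G : SimpleGraph V) : ℕ :=
  sSup {k | ∃ M : Finset (Sym2 V), (∀ e ∈ M, e ∈ G.edgeSet) ∧ IsMatching M ∧ M.card = k}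

/-- `G → t K₂`: for every colouring `c` of the edges of `G` with `q` colours there are a colour `j`
and a matching of `t j` edges of `G`, all of colour `j`. -/
def ArrowsMatchings {V : Type*} (G : SimpleGraph V) (q : ℕ) (t : Fin q → ℕ) : Prop :=
  ∀ c : Sym2 V → Fin q, ∃ j, ∃ M : Finset (Sym2 V),
    (∀ e ∈ M, e ∈ G.edgeSet ∧ c e = j) ∧ IsMatching M ∧ M.card = t j

/-- `Λ_t = ∑ (t_i - 1)`. -/
def Lambda {q : ℕ} (t : Fin q → ℕ) : ℕ := ∑ i, (t i - 1)

/-- `T_q(G)`: the vectors `t` of positive integers with `G → t K₂`. -/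
def arrowVectors {V : Type*} (q : ℕ) (G : SimpleGraph V) : Set (Fin q → ℕ) :=
  {t | (∀ i, 1 ≤ t i) ∧ ArrowsMatchings G q t}

/-- `ρ_q(G) = (1 / ν(G)) sup_{t ∈ T_q(G)} (Λ_t + 1)`. -/
noncomputable def rho {V : Type*} (q : ℕ) (G : SimpleGraph V) : ℝ :=
  1 / (matchingNumber G : ℝ) *
    sSup ((fun t : Fin q → ℕ => (Lambda t : ℝ) + 1) '' arrowVectors q G)

/-- `G` is 3-regular. -/
def Cubic {V : Type*} (G : SimpleGraph V) : Prop := ∀ v, (G.neighborSet v).ncard = 3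

/-- There is `ε > 0` such that the proportion of the graphs with `ρ_2(G) ≥ 1 + ε` among all
3-regular graphs on the vertex set `Fin (2 k)` tends to `1`: the uniformly random 3-regular graph
is whp 2-weakly Cockayne–Lorimer. -/
theorem result :
    ∃ ε : ℝ, 0 < ε ∧ Tendsto (fun k : ℕ =>
      ({G : SimpleGraph (Fin (2 * k)) | Cubic G ∧ 1 + ε ≤ rho 2 G}.ncard : ℝ) /
        ({G : SimpleGraph (Fin (2 * k)) | Cubic G}.ncard : ℝ)) atTop (𝓝 1) :=
  Pool.Agent.H41.CL.main_of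
    (Pool.Agent.H41.CL.t_DET Pool.Agent.H333.CL.t_TB)
    Pool.Agent.H71.CL.t_CYC
    (Pool.Agent.H41.CL.t_FIB Pool.Agent.H935.CL.t_CONJ Pool.Agent.H155.CL.t_INV)
    Pool.Agent.H402.CL.t_GR
    (Pool.Agent.H41.CL.t_SIMP Pool.Agent.H331.CL.t_MEAN Pool.Agent.H163.CL.t_SWI)
    (Pool.Agent.H870.CL.t_EXP Pool.Agent.H41.CL.t_SUB)
    (Pool.Agent.H410.CL.t_BIP Pool.Agent.H41.CL.t_SUB)

end Pool.Agent.Results.MP_76d27f_co.RandomCubicWeaklyCockayneLorimer
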